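import Mathlib
import Pool.Agent.P.MP_94cdcb_an.Defs
import Pool.Agent.P.MP_94cdcb_an.Proof

set_option autoImplicit false

open Pointwise Pool.Agent.P.MP_94cdcb_an

namespace Pool.Agent.Results.MP_94cdcb_an.SumNotSCD

/-- There are a real Banach space and two convex hereditarily SCD sets in it whose Minkowski
sum is not SCD. -/
theorem result :
    ∃ (X : Type) (_ : NormedAddCommGroup X) (_ : NormedSpace ℝ X) (_ : CompleteSpace X)
      (U₁ U₂ : Set X), Convex ℝ U₁ ∧ Convex ℝ U₂ ∧
        IsHereditarilySCD U₁ ∧ IsHereditarilySCD U₂ ∧ ¬ IsSCD (U₁ + U₂) :=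
  main

end Pool.Agent.Results.MP_94cdcb_an.SumNotSCD
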